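import Pool.Agent.Helper92.RECT.Goals2

/-!
# Packet RECT-WBN (helper39 for helper92): the numbers of steps of a local process
-/

set_option autoImplicit false

namespace Pool.Agent.Helper39.RECT

open Pool.Agent.Helper65.LinSpace Pool.Agent.Helper78.Mpc Pool.Agent.Helper28.Ram
open Pool.Agent.Helper65.OH Pool.Agent.Helper92.RECT

/-- Counting the `u` with `a ≤ u < b` and `Q u`. -/
noncomputable def cn (Q : ℕ → Prop) (a b : ℕ) : ℕ := {u : ℕ | a ≤ u ∧ u < b ∧ Q u}.ncard

theorem cn_fin (Q : ℕ → Prop) (a b : ℕ) : {u : ℕ | a ≤ u ∧ u < b ∧ Q u}.Finite :=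
  (Set.finite_lt_nat b).subset (fun _ hu => hu.2.1)

theorem cn_self (Q : ℕ → Prop) (a : ℕ) : cn Q a a = 0 := by
  unfold cn
  have h : {u : ℕ | a ≤ u ∧ u < a ∧ Q u} = ∅ := by
    ext u
    simp only [Set.mem_ofPred_eq, Set.mem_empty_iff_false, iff_false, not_and]
    intro h1 h2
    omega
  rw [h, Set.ncard_empty]

theorem cn_succ_of {Q : ℕ → Prop} {a b : ℕ} (hab : a ≤ b) (hQ : Q b) :
    cn Q a (b + 1) = cn Q a b + 1 := by
  unfold cn
  have h : {u : ℕ | a ≤ u ∧ u < b + 1 ∧ Q u} = insert b {u : ℕ | a ≤ u ∧ u < b ∧ Q u} := by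
    ext u
    simp only [Set.mem_ofPred_eq, Set.mem_insert_iff]
    constructor
    · rintro ⟨h1, h2, h3⟩
      rcases Nat.lt_or_ge u b with h | h
      · exact Or.inr ⟨h1, h, h3⟩
      · exact Or.inl (by omega)
    · rintro (h | ⟨h1, h2, h3⟩)
      · rw [h]
        exact ⟨hab, by omega, hQ⟩
      · exact ⟨h1, by omega, h3⟩
  rw [h, Set.ncard_insert_of_notMem _ (cn_fin Q a b)]
  simp

theorem cn_succ_not {Q : ℕ → Prop} {a b : ℕ} (hQ : ¬Q b) : cn Q a (b + 1) = cn Q a b := by
  unfold cn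
  congr 1
  ext u
  simp only [Set.mem_ofPred_eq]
  constructor
  · rintro ⟨h1, h2, h3⟩
    refine ⟨h1, ?_, h3⟩
    rcases Nat.lt_or_ge u b with h | h
    · exact h
    · have : u = b := by omega
      rw [this] at h3
      exact absurd h3 hQ
  · rintro ⟨h1, h2, h3⟩
    exact ⟨h1, by omega, h3⟩

theorem cn_mono (Q : ℕ → Prop) (a : ℕ) {b c : ℕ} (h : b ≤ c) : cn Q a b ≤ cn Q a c :=
  Set.ncard_le_ncard (fun _ hu => ⟨hu.1, lt_of_lt_of_le hu.2.1 h, hu.2.2⟩) (cn_fin Q a c)

theorem cn_ex {Q : ℕ → Prop} {a b : ℕ} (hab : a ≤ b) :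
    ∀ j < cn Q a b, ∃ u, a ≤ u ∧ u < b ∧ Q u ∧ cn Q a u = j := by
  induction b, hab using Nat.le_induction with
  | base =>
    intro j hj
    rw [cn_self] at hj
    omega
  | succ b hab ih =>
    intro j hj
    by_cases hQ : Q b
    · rw [cn_succ_of hab hQ] at hj
      rcases Nat.lt_or_ge j (cn Q a b) with h | h
      · obtain ⟨u, h1, h2, h3⟩ := ih j h
        exact ⟨u, h1, by omega, h3⟩
      · exact ⟨b, hab, by omega, hQ, by omega⟩
    · rw [cn_succ_not hQ] at hj
      obtain ⟨u, h1, h2, h3⟩ := ih j hj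
      exact ⟨u, h1, by omega, h3⟩

/-- A set of values `cn Q a u` is not larger than the set of the `u`. -/
theorem cn_image (S T : ℕ → Prop) (f : ℕ → ℕ) (a b : ℕ)
    (h : ∀ j, S j → ∃ u, a ≤ u ∧ u < b ∧ T u ∧ f u = j) :
    {j : ℕ | S j}.ncard ≤ cn T a b := by
  have h1 : {j : ℕ | S j} ⊆ f '' {u : ℕ | a ≤ u ∧ u < b ∧ T u} := by
    intro j hj
    obtain ⟨u, h1, h2, h3, h4⟩ := h j hj
    exact ⟨u, ⟨h1, h2, h3⟩, h4⟩
  exact (Set.ncard_le_ncard h1 ((cn_fin T a b).image f)).trans (Set.ncard_image_le (cn_fin T a b))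

variable {D : ℕ}

section

variable (A : OneHead D) (w y : List Bool) (P P' : ℤ)

theorem jt_eq (t₀ t : ℕ) : jt A w y P P' t₀ t =
    cn (fun u => In A w y P P' u ∨ In A w y P P' (u + 1)) t₀ t := rfl

theorem time_eq (t₀ t : ℕ) : time A w y P P' t₀ t = cn (fun u => In A w y P P' u) t₀ t := rfl

theorem work_eq (t₀ t : ℕ) : work A w y P P' t₀ t =
    cn (fun u => In A w y P P' u ∧ ¬Free A w y P P' u) t₀ t := rfl

theorem nc_eq (t₀ t : ℕ) : nc A w y P t₀ t = cn (fun u => Crs A w y P u) t₀ t := rfl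

open Classical in
theorem len_aux {t₀ t : ℕ} (h : t₀ ≤ t) : jt A w y P P' t₀ t ≤
    time A w y P P' t₀ t + work A w y P P' t₀ t + (if In A w y P P' t then 1 else 0) := by
  rw [jt_eq, time_eq, work_eq]
  induction t, h using Nat.le_induction with
  | base =>
    rw [cn_self]
    omega
  | succ t h ih =>
    by_cases h1 : In A w y P P' t
    · rw [cn_succ_of (Q := fun u => In A w y P P' u ∨ In A w y P P' (u + 1)) h (Or.inl h1),
        cn_succ_of (Q := fun u => In A w y P P' u) h h1]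
      rw [if_pos h1] at ih
      by_cases h2 : In A w y P P' (t + 1)
      · rw [if_pos h2]
        have h3 := cn_mono (fun u => In A w y P P' u ∧ ¬Free A w y P P' u) t₀ (Nat.le_succ t)
        have h4 : t.succ = t + 1 := rfl
        rw [h4] at h3
        omega
      · rw [cn_succ_of (Q := fun u => In A w y P P' u ∧ ¬Free A w y P P' u) h
          ⟨h1, fun hf => h2 hf.2.1⟩]
        omega
    · rw [if_neg h1] at ih
      rw [cn_succ_not (Q := fun u => In A w y P P' u) h1,
        cn_succ_not (Q := fun u => In A w y P P' u ∧ ¬Free A w y P P' u) (fun hh => h1 hh.1)]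
      by_cases h2 : In A w y P P' (t + 1)
      · rw [cn_succ_of (Q := fun u => In A w y P P' u ∨ In A w y P P' (u + 1)) h (Or.inr h2),
          if_pos h2]
        omega
      · rw [cn_succ_not (Q := fun u => In A w y P P' u ∨ In A w y P P' (u + 1))
          (fun hh => hh.elim h1 h2)]
        omega

/-- The time which belongs to the number `j`. -/
theorem time_of {t₀ t₁ : ℕ} (h : t₀ ≤ t₁) (j : ℕ) (hj : j < jt A w y P P' t₀ t₁) :
    ∃ u, t₀ ≤ u ∧ u < t₁ ∧ (In A w y P P' u ∨ In A w y P P' (u + 1)) ∧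
      jt A w y P P' t₀ u = j ∧ jt A w y P P' t₀ (u + 1) = j + 1 := by
  obtain ⟨u, h1, h2, h3, h4⟩ :=
    cn_ex (Q := fun u => In A w y P P' u ∨ In A w y P P' (u + 1)) h j hj
  refine ⟨u, h1, h2, h3, h4, ?_⟩
  rw [jt_eq, cn_succ_of (Q := fun u => In A w y P P' u ∨ In A w y P P' (u + 1)) h1 h3, h4]

theorem lcf_md (i j t : ℕ) (C : Conf D) : (lcf P P' i j t C).md = 1 ↔
    P ≤ fst C.h ∧ fst C.h < P' := by
  unfold lcf
  split_ifs with h1 h2
  · simp [h1]
  · simp [h1]
  · simp [h1]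

theorem lcf_M (i j t : ℕ) (C : Conf D) : (lcf P P' i j t C).C.M = lM P P' C.M := by
  unfold lcf
  split_ifs <;> rfl

theorem lcf_h (i j t : ℕ) (C : Conf D) (h : P ≤ fst C.h ∧ fst C.h < P') :
    (lcf P P' i j t C).C.h = shf (-P) C.h := by
  unfold lcf
  rw [if_pos h]

theorem fst_shf (hD : 0 < D) (z : ℤ) (p : Fin D → ℤ) : fst (shf z p) = fst p + z := by
  unfold fst shf
  simp [hD]

/-- The contents of the slab change only if the head is in the slab. -/
theorem lM_out (hD : 0 < D) (t : ℕ) (h : ¬In A w y P P' t) :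
    lM P P' (A.conf w y (t + 1)).M = lM P P' (A.conf w y t).M := by
  funext p
  unfold lM
  split_ifs with hp
  · have h1 : (A.conf w y (t + 1)).M = Function.update (A.conf w y t).M (A.conf w y t).h
        (A.write (A.inp w y (A.conf w y t).q ((A.conf w y t).M (A.conf w y t).h))) := rfl
    rw [h1, Function.update_of_ne]
    intro h2
    apply h
    unfold In
    rw [← h2, fst_shf hD]
    constructor
    · linarith [hp.1]
    · linarith [hp.2]
  · rfl

/-- A step which enters or leaves the slab crosses one of its ends. -/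
theorem crosses (t : ℕ) (h1 : In A w y P P' t ∨ In A w y P P' (t + 1))
    (h2 : ¬(In A w y P P' t ∧ In A w y P P' (t + 1))) : Crs A w y P t ∨ Crs A w y P' t := by
  unfold In at h1 h2
  unfold Crs
  by_contra hc
  push Not at hc
  obtain ⟨h3, h4⟩ := hc
  apply h2
  rcases h1 with ⟨h5, h6⟩ | ⟨h5, h6⟩
  · refine ⟨⟨h5, h6⟩, ?_, h4.mp h6⟩
    by_contra h7
    push Not at h7
    have := h3.mpr h7
    omega
  · refine ⟨⟨?_, h4.mpr h6⟩, h5, h6⟩
    by_contra h7
    push Not at h7
    have := h3.mp h7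
    omega

end

theorem wbn (hreal : REAL_stmt) : WBN_stmt where
  len := by
    intro D _ A w y P P' t₀ t₁ _ ht
    have h := len_aux A w y P P' ht
    split_ifs at h <;> omega
  new := by
    intro D hD A w y P P' t₀ t₁ hP ht hacc
    obtain ⟨hr, -, -⟩ := hreal hD A w y P P' t₀ t₁ hP ht hacc
    refine ⟨fun j => ∃ u, t₀ ≤ u ∧ u < t₁ ∧ (In A w y P P' u ∧ ¬Free A w y P P' u) ∧
      jt A w y P P' t₀ u = j, ?_, ?_⟩
    · exact cn_image _ (fun u => In A w y P P' u ∧ ¬Free A w y P P' u)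
        (jt A w y P P' t₀) t₀ t₁ (fun j hj => hj.2)
    · intro v i hvi hi hM hh hm1 hm2
      obtain ⟨ui, a1, a2, a3, a4, a5⟩ := time_of A w y P P' ht i hi
      obtain ⟨uv, b1, b2, b3, b4, b5⟩ := time_of A w y P P' ht v (by omega)
      have r1 := hr ui a1 (by omega)
      have r2 := hr (ui + 1) (by omega) (by omega)
      have r3 := hr uv b1 (by omega)
      have r4 := hr (uv + 1) (by omega) (by omega)
      rw [a4] at r1
      rw [a5] at r2
      rw [b4] at r3
      rw [b5] at r4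
      have i1 : In A w y P P' ui := by
        rw [r1] at hm1
        exact (lcf_md P P' _ _ _ _).mp hm1
      have i2 : In A w y P P' (ui + 1) := by
        rw [r2] at hm2
        exact (lcf_md P P' _ _ _ _).mp hm2
      by_contra hN
      have hfree : Free A w y P P' ui := by
        by_contra hf
        exact hN ⟨ui, a1, a2, ⟨i1, hf⟩, a4⟩
      obtain ⟨-, -, u, hu1, hu2, hu3⟩ := hfree
      rw [r3, r4, lcf_M, lcf_M] at hM
      have i3 : In A w y P P' uv := by
        by_contra hc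
        exact hM (lM_out A w y P P' hD uv hc)
      have hM2 : (A.conf w y (uv + 1)).M ≠ (A.conf w y uv).M := by
        intro hc
        rw [hc] at hM
        exact hM rfl
      have huv : uv ≤ ui := by
        by_contra hc
        push Not at hc
        have h1 := cn_mono (fun u => In A w y P P' u ∨ In A w y P P' (u + 1)) t₀
          (show ui + 1 ≤ uv by omega)
        rw [← jt_eq, ← jt_eq, a5, b4] at h1
        omega
      have hlt : uv < u := by
        by_contra hc
        push Not at hc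
        exact hM2 (hu3 uv hc huv i3)
      have i4 : In A w y P P' u := by
        unfold In at i2 ⊢
        rw [hu2]
        exact i2
      have r5 := hr u (by omega) (by omega)
      have j1 : v ≤ jt A w y P P' t₀ u := by
        have h1 := cn_mono (fun u => In A w y P P' u ∨ In A w y P P' (u + 1)) t₀
          (show uv ≤ u by omega)
        rw [← jt_eq, ← jt_eq, b4] at h1
        exact h1
      have j2 : jt A w y P P' t₀ u ≤ i := by
        have h1 := cn_mono (fun u => In A w y P P' u ∨ In A w y P P' (u + 1)) t₀ hu1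
        rw [← jt_eq, ← jt_eq, a4] at h1
        exact h1
      apply hh _ j1 j2
      rw [r5, r2, lcf_h _ _ _ _ _ _ i4, lcf_h _ _ _ _ _ _ i2, hu2]
  reg := by
    intro D hD A w y P P' t₀ t₁ hP ht hacc
    obtain ⟨hr, -, -⟩ := hreal hD A w y P P' t₀ t₁ hP ht hacc
    have h1 : {j : ℕ | j < jt A w y P P' t₀ t₁ ∧ ¬((rl A w y P P' t₀ t₁ j).md = 1 ∧
        (rl A w y P P' t₀ t₁ (j + 1)).md = 1)} ⊆
        {j : ℕ | ∃ u, t₀ ≤ u ∧ u < t₁ ∧ Crs A w y P u ∧ jt A w y P P' t₀ u = j} ∪
        {j : ℕ | ∃ u, t₀ ≤ u ∧ u < t₁ ∧ Crs A w y P' u ∧ jt A w y P P' t₀ u = j} := by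
      rintro j ⟨hj, hn⟩
      obtain ⟨u, a1, a2, a3, a4, a5⟩ := time_of A w y P P' ht j hj
      have r1 := hr u a1 (by omega)
      have r2 := hr (u + 1) (by omega) (by omega)
      rw [a4] at r1
      rw [a5] at r2
      rw [r1, r2, lcf_md, lcf_md] at hn
      rcases crosses A w y P P' u a3 hn with h | h
      · exact Or.inl ⟨u, a1, a2, h, a4⟩
      · exact Or.inr ⟨u, a1, a2, h, a4⟩
    have f : ∀ Q : ℤ, {j : ℕ | ∃ u, t₀ ≤ u ∧ u < t₁ ∧ Crs A w y Q u ∧
        jt A w y P P' t₀ u = j}.Finite := by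
      intro Q
      refine ((cn_fin (fun u => Crs A w y Q u) t₀ t₁).image (jt A w y P P' t₀)).subset ?_
      rintro j ⟨u, h1, h2, h3, h4⟩
      exact ⟨u, ⟨h1, h2, h3⟩, h4⟩
    refine (Set.ncard_le_ncard h1 ((f P).union (f P'))).trans
      ((Set.ncard_union_le _ _).trans (Nat.add_le_add ?_ ?_))
    · exact cn_image _ (fun u => Crs A w y P u) (jt A w y P P' t₀) t₀ t₁ (fun j hj => hj)
    · exact cn_image _ (fun u => Crs A w y P' u) (jt A w y P P' t₀) t₀ t₁ (fun j hj => hj)
  at' := by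
    intro D hD A w y P P' t₀ t₁ hP ht hacc j hj
    obtain ⟨hr, -, -⟩ := hreal hD A w y P P' t₀ t₁ hP ht hacc
    obtain ⟨t, h1, h2, h3⟩ : ∃ t, t₀ ≤ t ∧ t ≤ t₁ ∧ jt A w y P P' t₀ t = j := by
      rcases Nat.lt_or_ge j (jt A w y P P' t₀ t₁) with h | h
      · obtain ⟨u, a1, a2, a3, a4, a5⟩ := time_of A w y P P' ht j h
        exact ⟨u, a1, by omega, a4⟩
      · exact ⟨t₁, ht, le_rfl, by omega⟩
    refine ⟨t, nc A w y P t₀ t, nc A w y P' t₀ t, time A w y P P' t₀ t, h1, h2, ?_, ?_, ?_, ?_⟩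
    · exact cn_mono (fun u => Crs A w y P u) t₀ h2
    · exact cn_mono (fun u => Crs A w y P' u) t₀ h2
    · exact cn_mono (fun u => In A w y P P' u) t₀ h2
    · rw [← hr t h1 h2, h3]

end Pool.Agent.Helper39.RECT
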