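import Pool.Agent.Helper92.RECT.Goals3
import Pool.Agent.Helper65.OH.GEO
import Pool.Agent.Helper75.OH.STEP

/-!
# Packet RECT-STN (helper39 for helper92): one step of the slab process
-/

set_option autoImplicit false

namespace Pool.Agent.Helper39.RECT

open Pool.Agent.Helper65.LinSpace Pool.Agent.Helper78.Mpc Pool.Agent.Helper28.Ram Finset
open Pool.Agent.Helper65.OH (Prm OneHead Conf Par InBox co GoodQ Fns)
open Pool.Agent.Helper28.OHS (cellN cs cn cd Rep)
open Pool.Agent.Helper92.RECT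

/-! ### Arithmetic -/

theorem add_mul_lt {a A b B : ℕ} (ha : a < A) (hb : b < B) : a + A * b < A * B := by
  have h1 : A * (b + 1) ≤ A * B := Nat.mul_le_mul_left _ hb
  rw [Nat.mul_add, Nat.mul_one] at h1
  omega

theorem mod_of {a A b : ℕ} (ha : a < A) : (a + A * b) % A = a := by
  rw [Nat.add_mul_mod_self_left, Nat.mod_eq_of_lt ha]

theorem div_of {a A b : ℕ} (ha : a < A) : (a + A * b) / A = b := by
  rw [Nat.add_mul_div_left _ _ (by omega), Nat.div_eq_of_lt ha, Nat.zero_add]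

/-- The fields of a code. -/
structure Fld (s : Sp) (q u md i j t p : ℕ) : Prop where
  lt : q < 2 ^ (s.θ + s.m.κ * s.m.D)
  wq : s.wq q = u
  md : s.md q = md
  ix : s.ix q = i
  jx : s.jx q = j
  tx : s.tx q = t
  ce : s.ce q = p

theorem cod_spec (s : Sp) {u md i j t p : ℕ} (hu : u < 2 ^ (s.m.S + 1)) (hmd : md < 8)
    (hi : i < 2 ^ s.ν) (hj : j < 2 ^ s.ν) (ht : t < 2 ^ s.te) (hp : p < 2 ^ (s.m.κ * s.m.D)) :
    Fld s (s.cod u md i j t p) u md i j t p := by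
  have hθ : 2 ^ s.θ = 2 ^ (s.m.S + 1) * (8 * (2 ^ s.ν * (2 ^ s.ν * 2 ^ s.te))) := by
    unfold Sp.θ
    rw [pow_add _ (s.m.S + 1), pow_add _ (3 + 2 * s.ν), pow_add _ 3, two_mul, pow_add _ s.ν]
    ring
  have e1 : s.cod u md i j t p = u + 2 ^ (s.m.S + 1) * (md + 8 * (i + 2 ^ s.ν * (j + 2 ^ s.ν *
      (t + 2 ^ s.te * p)))) := by
    unfold Sp.cod
    rw [Nat.mod_eq_of_lt hi, Nat.mod_eq_of_lt hj, Nat.mod_eq_of_lt ht, hθ]
    ring
  have e2 : s.cod u md i j t p = (u + 2 ^ (s.m.S + 1) * (md + 8 * (i + 2 ^ s.ν * (j + 2 ^ s.ν *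
      t)))) + 2 ^ s.θ * p := by
    unfold Sp.cod
    rw [Nat.mod_eq_of_lt hi, Nat.mod_eq_of_lt hj, Nat.mod_eq_of_lt ht]
  have hr : u + 2 ^ (s.m.S + 1) * (md + 8 * (i + 2 ^ s.ν * (j + 2 ^ s.ν * t))) < 2 ^ s.θ := by
    rw [hθ]
    exact add_mul_lt hu (add_mul_lt hmd (add_mul_lt hi (add_mul_lt hj ht)))
  refine ⟨?_, ?_, ?_, ?_, ?_, ?_, ?_⟩
  · rw [e2, pow_add 2 s.θ]
    exact add_mul_lt hr hp
  · unfold Sp.wq
    rw [e1, mod_of hu]
  · unfold Sp.md
    rw [e1, div_of hu, mod_of hmd]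
  · unfold Sp.ix
    rw [e1, div_of hu, div_of hmd, mod_of hi]
  · unfold Sp.jx
    rw [e1, div_of hu, div_of hmd, div_of hi, mod_of hj]
  · unfold Sp.tx
    rw [e1, div_of hu, div_of hmd, div_of hi, div_of hj, mod_of ht]
  · unfold Sp.ce
    rw [e2, div_of hr]

/-! ### Positions -/

variable {D : ℕ}

/-- The number `p` codes the position `h`. -/
structure Pos (m : Prm) (h : Fin D → ℤ) (p : ℕ) : Prop where
  lt : p < 2 ^ (m.κ * m.D)
  dg : ∀ k : Fin D, ((dig (2 ^ m.κ) p k : ℕ) : ℤ) = h k + 2 ^ (m.κ - 1)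

theorem Pos.box {m : Prm} {h : Fin D → ℤ} {p : ℕ} (hp : Pos m h p) : InBox m.κ h := by
  intro k
  rw [← hp.dg k]
  constructor
  · positivity
  · exact_mod_cast dig_lt (q := 2 ^ m.κ) (by positivity) p k

theorem Pos.cd {m : Prm} {h : Fin D → ℤ} {p : ℕ} (hp : Pos m h p) (hD : m.D = D) :
    p = cd m h := by
  unfold Pool.Agent.Helper28.OHS.cd
  subst hD
  have h1 : p < (2 ^ m.κ) ^ m.D := by
    rw [← pow_mul]
    exact hp.lt
  rw [← tab_dig p m.D h1]
  apply tab_congr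
  intro k hk
  unfold co
  rw [dif_pos hk, ← hp.dg ⟨k, hk⟩]
  simp

theorem co_cast {κ : ℕ} {h : Fin D → ℤ} (hb : InBox κ h) (k : Fin D) :
    ((co κ h k : ℕ) : ℤ) = h k + 2 ^ (κ - 1) := by
  unfold co
  rw [dif_pos k.isLt]
  exact Int.toNat_of_nonneg (hb k).1

theorem co_lt {κ : ℕ} {h : Fin D → ℤ} (hb : InBox κ h) (k : ℕ) (hk : k < D) :
    co κ h k < 2 ^ κ := by
  have h1 := co_cast hb ⟨k, hk⟩
  have h2 := (hb ⟨k, hk⟩).2
  rw [← h1] at h2
  exact_mod_cast h2

theorem pos_cd {m : Prm} {h : Fin D → ℤ} (hD : m.D = D) (hb : InBox m.κ h) :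
    Pos m h (cd m h) := by
  subst hD
  refine ⟨?_, fun k => ?_⟩
  · rw [pow_mul]
    exact tab_lt (fun k hk => co_lt hb k hk)
  · unfold Pool.Agent.Helper28.OHS.cd
    rw [dig_tab (fun k hk => co_lt hb k hk) k.isLt]
    exact co_cast hb k

theorem cd_inj {m : Prm} {h h' : Fin D → ℤ} (hD : m.D = D) (hb : InBox m.κ h)
    (hb' : InBox m.κ h') (he : cd m h = cd m h') : h = h' := by
  funext k
  have h1 := (pos_cd hD hb).dg k
  have h2 := (pos_cd hD hb').dg k
  rw [he, h2] at h1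
  linarith

/-- Two codes of one position. -/
theorem Pos.eq {m : Prm} {h : Fin D → ℤ} {p p' : ℕ} (hD : m.D = D) (hp : Pos m h p)
    (hp' : Pos m h p') : p = p' := by
  rw [hp.cd hD, hp'.cd hD]

theorem num_lt' {S : ℕ} {w : List Bool} (h : w.length ≤ S) : num w < 2 ^ (S + 1) := by
  rw [← capN_num h]
  exact capN_lt _ _

theorem good_of {m : Prm} {C : Conf D} {u p : ℕ} (hu : u = num C.q) (hl : C.q.length ≤ m.S)
    (hp : Pos m C.h p) : GoodQ m C (u + 2 ^ (m.S + 1) * p) := by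
  have h1 : u < 2 ^ (m.S + 1) := by
    rw [hu]
    exact num_lt' hl
  refine ⟨?_, ?_, hl, ?_⟩
  · unfold Prm.sg
    rw [pow_add 2 (m.S + 1)]
    exact add_mul_lt h1 hp.lt
  · unfold Prm.wq
    rw [mod_of h1, hu]
  · intro k
    unfold Prm.cq
    rw [div_of h1]
    exact hp.dg k

theorem pos_of {m : Prm} {C : Conf D} {q : ℕ} (hq : GoodQ m C q) :
    Pos m C.h (q / 2 ^ (m.S + 1)) ∧ q % 2 ^ (m.S + 1) = num C.q := by
  refine ⟨⟨?_, hq.cq⟩, hq.wq⟩
  rw [Nat.div_lt_iff_lt_mul (by positivity), mul_comm, ← pow_add]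
  exact hq.lt

theorem fst_eq (hD : 0 < D) (p : Fin D → ℤ) : fst p = p ⟨0, hD⟩ := by
  unfold fst
  rw [dif_pos hD]

theorem dig_rest (Q p u k : ℕ) (hu : u < Q) :
    dig Q (p - p % Q + u) (k + 1) = dig Q p (k + 1) := by
  rw [dig_succ, dig_succ]
  congr 1
  have h1 : p - p % Q + u = u + Q * (p / Q) := by
    have := Nat.div_add_mod p Q
    omega
  rw [h1, div_of hu]

theorem dig_first (Q p u : ℕ) (hu : u < Q) : dig Q (p - p % Q + u) 0 = u := by
  rw [dig_zero]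
  have h1 : p - p % Q + u = u + Q * (p / Q) := by
    have := Nat.div_add_mod p Q
    omega
  rw [h1, mod_of hu]

theorem rest_lt (κ d p u : ℕ) (hd : 0 < d) (hp : p < 2 ^ (κ * d)) (hu : u < 2 ^ κ) :
    p - p % 2 ^ κ + u < 2 ^ (κ * d) := by
  have h1 : p - p % 2 ^ κ + u = u + 2 ^ κ * (p / 2 ^ κ) := by
    have := Nat.div_add_mod p (2 ^ κ)
    omega
  obtain ⟨e, rfl⟩ : ∃ e, d = e + 1 := ⟨d - 1, by omega⟩
  have h2 : 2 ^ (κ * (e + 1)) = 2 ^ κ * 2 ^ (κ * e) := by
    rw [← pow_add]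
    congr 1
    ring
  rw [h1, h2]
  rw [h2] at hp
  exact add_mul_lt hu (Nat.div_lt_of_lt_mul hp)

/-- The position with another first coordinate, if the other digits are those of `h`. -/
theorem st0_pos {s : Sp} {h : Fin D → ℤ} {p u : ℕ} {z : ℤ} (hD : 0 < D) (hmD : s.m.D = D)
    (hp : p < 2 ^ (s.m.κ * s.m.D))
    (hd : ∀ k : Fin D, k.val ≠ 0 → ((dig (2 ^ s.m.κ) p k : ℕ) : ℤ) = h k + 2 ^ (s.m.κ - 1))
    (hu : u < 2 ^ s.m.κ) (huz : (u : ℤ) = z + 2 ^ (s.m.κ - 1)) :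
    Pos s.m (set0 h z) (s.st0 p u) := by
  refine ⟨rest_lt _ _ _ _ (by omega) hp hu, fun k => ?_⟩
  unfold Sp.st0 set0
  by_cases hk : k.val = 0
  · rw [if_pos hk, hk, dig_first _ _ _ hu, huz]
  · obtain ⟨l, hl⟩ : ∃ l, k.val = l + 1 := ⟨k.val - 1, by omega⟩
    rw [if_neg hk, hl, dig_rest _ _ _ _ hu, ← hl, hd k hk]

/-! ### The conditions on positions -/

theorem kap_ge {A : OneHead D} {w y : List Bool} {s : Sp} {P P' : ℤ} (R : Rdy A w y s P P') :
    2 ^ s.m.κ = 2 * 2 ^ (s.m.κ - 1) ∧ 2 ^ (s.m.κ - 1) = 2 * 2 ^ (s.m.κ - 2) := by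
  have := R.κ
  constructor
  · rw [← pow_succ']
    congr 1
    omega
  · rw [← pow_succ']
    congr 1
    omega

theorem hD_of {A : OneHead D} {w y : List Bool} {s : Sp} {P P' : ℤ} (R : Rdy A w y s P P') :
    s.m.D = D := by
  obtain ⟨_, _, _, _, h⟩ := R.par
  exact h.h_D

theorem gv_iff {A : OneHead D} {w y : List Bool} {s : Sp} {P P' : ℤ} (R : Rdy A w y s P P')
    {h : Fin D → ℤ} {p : ℕ} (hp : Pos s.m h p) (k : Fin D) :
    s.gv (dig (2 ^ s.m.κ) p k) k = if 0 ≤ shf P h k + 2 ^ (s.G.κ - 1) ∧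
      shf P h k + 2 ^ (s.G.κ - 1) < 2 ^ s.G.κ then 1 else 0 := by
  have hd := hp.dg k
  have hPh := R.Ph
  unfold Sp.gv Sp.gc Sp.oA Sp.oB shf
  by_cases hk : k.val = 0
  · rw [hk] at hd ⊢
    simp only [ifz_zero, if_true]
    unfold le01 lt01
    have c1 : (2 ^ s.π + 2 ^ (s.m.κ - 1) ≤ dig (2 ^ s.m.κ) p 0 + (s.Ph + 2 ^ (s.G.κ - 1))) ↔
        0 ≤ h k + P + 2 ^ (s.G.κ - 1) := by
      rw [← Nat.cast_le (α := ℤ)]
      push_cast
      rw [hd, hPh]
      constructor <;> intro h1 <;> linarith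
    by_cases h1 : 0 ≤ h k + P + 2 ^ (s.G.κ - 1)
    · have c2 : (dig (2 ^ s.m.κ) p 0 + (s.Ph + 2 ^ (s.G.κ - 1)) - (2 ^ s.π + 2 ^ (s.m.κ - 1)) <
          2 ^ s.G.κ) ↔ h k + P + 2 ^ (s.G.κ - 1) < 2 ^ s.G.κ := by
        rw [← Nat.cast_lt (α := ℤ), Nat.cast_sub (c1.mpr h1)]
        push_cast
        rw [hd, hPh]
        constructor <;> intro h1 <;> linarith
      rw [if_pos (c1.mpr h1), one_mul]
      by_cases h2 : h k + P + 2 ^ (s.G.κ - 1) < 2 ^ s.G.κ
      · rw [if_pos (c2.mpr h2), if_pos ⟨h1, h2⟩]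
      · rw [if_neg (fun hh => h2 (c2.mp hh)), if_neg (fun hh => h2 hh.2)]
    · rw [if_neg (fun hh => h1 (c1.mp hh)), zero_mul, if_neg (fun hh => h1 hh.1)]
  · rw [ifz_ne hk, ifz_ne hk, if_neg hk]
    unfold le01 lt01
    have c1 : (2 ^ (s.m.κ - 1) ≤ dig (2 ^ s.m.κ) p k + 2 ^ (s.G.κ - 1)) ↔
        0 ≤ h k + 2 ^ (s.G.κ - 1) := by
      rw [← Nat.cast_le (α := ℤ)]
      push_cast
      rw [hd]
      constructor <;> intro h1 <;> linarith
    by_cases h1 : 0 ≤ h k + 2 ^ (s.G.κ - 1)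
    · have c2 : (dig (2 ^ s.m.κ) p k + 2 ^ (s.G.κ - 1) - 2 ^ (s.m.κ - 1) <
          2 ^ s.G.κ) ↔ h k + 2 ^ (s.G.κ - 1) < 2 ^ s.G.κ := by
        rw [← Nat.cast_lt (α := ℤ), Nat.cast_sub (c1.mpr h1)]
        push_cast
        rw [hd]
        constructor <;> intro h1 <;> linarith
      rw [if_pos (c1.mpr h1), one_mul]
      by_cases h2 : h k + 2 ^ (s.G.κ - 1) < 2 ^ s.G.κ
      · rw [if_pos (c2.mpr h2), if_pos ⟨h1, h2⟩]
      · rw [if_neg (fun hh => h2 (c2.mp hh)), if_neg (fun hh => h2 hh.2)]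
    · rw [if_neg (fun hh => h1 (c1.mp hh)), zero_mul, if_neg (fun hh => h1 hh.1)]

theorem gV_iff {A : OneHead D} {w y : List Bool} {s : Sp} {P P' : ℤ} (R : Rdy A w y s P P')
    {h : Fin D → ℤ} {p : ℕ} (hp : Pos s.m h p) : s.gV p ≠ 0 ↔ InBox s.G.κ (shf P h) := by
  have hD := hD_of R
  unfold Sp.gV eq01
  constructor
  · intro h1
    have h2 : ∑ k ∈ range s.m.D, (1 - s.gv (dig (2 ^ s.m.κ) p k) k) = 0 := by
      by_contra hc
      rw [if_neg hc] at h1
      exact h1 rfl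
    rw [Finset.sum_eq_zero_iff] at h2
    intro k
    have h3 := h2 k (by rw [Finset.mem_range, hD]; exact k.isLt)
    rw [gv_iff R hp k] at h3
    by_contra hc
    rw [if_neg hc] at h3
    omega
  · intro h1
    rw [if_pos]
    · exact one_ne_zero
    · apply Finset.sum_eq_zero
      intro k hk
      rw [Finset.mem_range, hD] at hk
      have h2 := gv_iff R hp ⟨k, hk⟩
      simp only at h2
      rw [h2, if_pos (h1 ⟨k, hk⟩), Nat.sub_self]

theorem c0_pos {A : OneHead D} {w y : List Bool} {s : Sp} {P P' : ℤ} (R : Rdy A w y s P P') :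
    Pos s.m (fun _ : Fin D => (0 : ℤ)) s.c0 := by
  have hD := hD_of R
  have hk := (kap_ge R).1
  have h0 : ∀ i < s.m.D, 2 ^ (s.m.κ - 1) < 2 ^ s.m.κ := by
    intro i _
    have : 0 < 2 ^ (s.m.κ - 1) := by positivity
    omega
  refine ⟨?_, fun k => ?_⟩
  · rw [pow_mul]
    exact tab_lt h0
  · unfold Sp.c0
    rw [dig_tab h0 (by rw [hD]; exact k.isLt)]
    push_cast
    ring

theorem fl_md {A : OneHead D} {w y : List Bool} {s : Sp} {P P' : ℤ} (R : Rdy A w y s P P') :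
    s.md s.fl = 0 := by
  have h1 : 1 < 2 ^ (s.m.S + 1) := Nat.one_lt_two_pow (by omega)
  exact (cod_spec s h1 (by norm_num) (by positivity) (by positivity) (by positivity)
    (c0_pos R).lt).md

/-! ### Codes of configurations -/

theorem cd_mk {s : Sp} {P : ℤ} {q u md i j t p : ℕ} (F : Fld s q u md i j t p) (X : LConf D)
    (h1 : X.md = md) (h0 : md ≠ 0) (h3 : md ≤ 3) (hi : X.i = i) (hj : X.j = j) (ht : X.t = t)
    (htn : t ≤ s.n) (hu : u = num X.C.q) (hl : X.C.q.length ≤ s.m.S) (hp : Pos s.m X.C.h p)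
    (hb : md = 1 → 0 ≤ fst X.C.h ∧ fst X.C.h < s.W ∧ InBox s.G.κ (shf P X.C.h)) :
    Cd s P X q := by
  refine ⟨F.lt, by omega, by omega, by rw [F.md, h1], by rw [F.ix, hi], by rw [F.jx, hj],
    by rw [F.tx, ht], by omega, ?_, fun h => hb (by omega)⟩
  unfold Sp.bq
  rw [F.wq, F.ce]
  exact good_of hu hl hp

/-- What a code says. -/
theorem cd_base {s : Sp} {P : ℤ} {X : LConf D} {q : ℕ} (h : Cd s P X q) :
    Pos s.m X.C.h (s.ce q) ∧ s.wq q = num X.C.q ∧ s.m.wq (s.bq q) = num X.C.q ∧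
      X.i < 2 ^ s.ν ∧ X.j < 2 ^ s.ν ∧ X.t < 2 ^ s.te := by
  have hw : s.wq q < 2 ^ (s.m.S + 1) := Nat.mod_lt _ (by positivity)
  obtain ⟨h1, h2⟩ := pos_of h.base
  unfold Sp.bq at h1 h2
  rw [div_of hw] at h1
  rw [mod_of hw] at h2
  refine ⟨h1, h2, h.base.wq, ?_, ?_, ?_⟩
  · rw [← h.ix]
    exact Nat.mod_lt _ (by positivity)
  · rw [← h.jx]
    exact Nat.mod_lt _ (by positivity)
  · rw [← h.tx]
    exact Nat.mod_lt _ (by positivity)

/-! ### Records -/

theorem rcd_mod (s : Sp) (z : ℕ) : s.rcd z % 2 ^ (s.m.S + 1) = z % 2 ^ (s.m.S + 1) := by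
  unfold Sp.rcd
  rw [mod_of (Nat.mod_lt _ (by positivity))]

theorem rcd_div (s : Sp) (z : ℕ) :
    s.rcd z / 2 ^ (s.m.S + 1) = s.st0 (z / 2 ^ (s.m.S + 1)) 0 := by
  unfold Sp.rcd
  rw [div_of (Nat.mod_lt _ (by positivity))]

theorem rec_of_LM {s : Sp} {Λ : ℕ} {ℓ : ℕ → Option (List Bool × (Fin D → ℤ))}
    (hL : LM s.m Λ ℓ) {i : ℕ} {C' : Conf D} {z : ℕ} (hz : GoodQ s.m C' z)
    (he : dig (2 ^ s.m.sg) Λ i = s.rcd z) :
    ℓ i = some (C'.q, set0 C'.h 0) ∧ dig (2 ^ s.m.sg) Λ i ≠ 0 := by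
  have hm : dig (2 ^ s.m.sg) Λ i % 2 ^ (s.m.S + 1) = num C'.q := by
    rw [he, rcd_mod]
    exact hz.wq
  have hpos := num_pos C'.q
  rcases hL i with ⟨h0, _⟩ | ⟨ρ, hρ, hne, hrc | hz0⟩
  · rw [h0, Nat.zero_mod] at hm
    omega
  · refine ⟨?_, hne⟩
    rw [hρ]
    have h1 : ρ.1 = C'.q := by
      apply num_injective
      rw [← hrc.wq, hm]
    have h2 : ρ.2 = set0 C'.h 0 := by
      funext k
      unfold set0
      by_cases hk : k.val = 0
      · rw [if_pos hk, hrc.zero k hk]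
      · rw [if_neg hk]
        have h3 := hrc.co k hk
        rw [he, rcd_div] at h3
        obtain ⟨l, hl⟩ : ∃ l, k.val = l + 1 := ⟨k.val - 1, by omega⟩
        unfold Sp.st0 at h3
        rw [hl, dig_rest _ _ _ _ (by positivity), ← hl] at h3
        have h4 := hz.cq k
        unfold Prm.cq at h4
        rw [h4] at h3
        linarith
    rw [← h1, ← h2]
  · omega

theorem LMs_rec {s : Sp} {Λ : ℕ} {ℓ : ℕ → Option (List Bool × (Fin D → ℤ))} (hD : 0 < D)
    (hmD : s.m.D = D) (hL : LMs s.m Λ ℓ) {i : ℕ} {C' : Conf D} {z : ℕ} (hz : GoodQ s.m C' z)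
    (he : ℓ i = some (C'.q, set0 C'.h 0)) : dig (2 ^ s.m.sg) Λ i = s.rcd z := by
  rcases hL i with ⟨_, h0⟩ | ⟨ρ, hρ, hrc, hf⟩
  · rw [h0] at he
    exact absurd he (by simp)
  · rw [hρ, Option.some_inj] at he
    obtain ⟨hp, hw⟩ := pos_of hz
    set dg := dig (2 ^ s.m.sg) Λ i with hdg
    have h1 : dg % 2 ^ (s.m.S + 1) = z % 2 ^ (s.m.S + 1) := by
      rw [hrc.wq, he, hw]
    have h2 : dg / 2 ^ (s.m.S + 1) = s.st0 (z / 2 ^ (s.m.S + 1)) 0 := by
      have p1 : Pos s.m (set0 C'.h (-2 ^ (s.m.κ - 1))) (dg / 2 ^ (s.m.S + 1)) := by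
        refine ⟨?_, fun k => ?_⟩
        · rw [Nat.div_lt_iff_lt_mul (by positivity), mul_comm, ← pow_add]
          exact hrc.lt
        · unfold set0
          by_cases hk : k.val = 0
          · rw [if_pos hk, hk, dig_zero, hf]
            push_cast
            ring
          · rw [if_neg hk, hrc.co k hk, he]
            unfold set0
            simp only [if_neg hk]
      have p2 : Pos s.m (set0 C'.h (-2 ^ (s.m.κ - 1))) (s.st0 (z / 2 ^ (s.m.S + 1)) 0) :=
        st0_pos hD hmD hp.lt (fun k _ => hp.dg k) (by positivity) (by push_cast; ring)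
      exact p1.eq hmD p2
    unfold Sp.rcd
    rw [← h1, ← h2, Nat.mod_add_div]

/-- The new configuration after entering the slab. -/
theorem enter {A : OneHead D} {w y : List Bool} {s : Sp} {P P' : ℤ} (R : Rdy A w y s P P')
    {ρ : List Bool × (Fin D → ℤ)} {dg i j t U : ℕ} {z : ℤ} (hrc : RC s.m ρ dg)
    (hU : U < 2 ^ s.m.κ) (hUz : (U : ℤ) = z + 2 ^ (s.m.κ - 1)) :
    Pos s.m (set0 ρ.2 z) (s.st0 (dg / 2 ^ (s.m.S + 1)) U) ∧
    (0 ≤ z → z < s.W → i < 2 ^ s.ν → j < 2 ^ s.ν → t < 2 ^ s.te → t ≤ s.n →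
      ∀ M : (Fin D → ℤ) → List Bool, s.gV (s.st0 (dg / 2 ^ (s.m.S + 1)) U) ≠ 0 →
      Cd s P ⟨1, i, j, t, ⟨ρ.1, set0 ρ.2 z, M⟩⟩
        (s.cod (dg % 2 ^ (s.m.S + 1)) 1 i j t (s.st0 (dg / 2 ^ (s.m.S + 1)) U))) := by
  have hD := R.pos
  have hmD := hD_of R
  have hlt : dg / 2 ^ (s.m.S + 1) < 2 ^ (s.m.κ * s.m.D) := by
    rw [Nat.div_lt_iff_lt_mul (by positivity), mul_comm, ← pow_add]
    exact hrc.lt
  have hp : Pos s.m (set0 ρ.2 z) (s.st0 (dg / 2 ^ (s.m.S + 1)) U) :=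
    st0_pos hD hmD hlt hrc.co hU hUz
  refine ⟨hp, fun hz0 hzW hi hj ht htn M hg => ?_⟩
  refine cd_mk (cod_spec s (Nat.mod_lt _ (by positivity)) (by norm_num) hi hj ht hp.lt) _ rfl
    one_ne_zero (by norm_num) rfl rfl rfl htn hrc.wq hrc.len hp (fun _ => ?_)
  have hf : fst (set0 ρ.2 z) = z := by
    rw [fst_eq hD]
    simp [set0]
  refine ⟨by rw [hf]; exact hz0, by rw [hf]; exact hzW, (gV_iff R hp).mp hg⟩

/-! ### The contents -/

theorem cts_same {s : Sp} {P : ℤ} {X X' : LConf D} {M : ℕ → ℕ} {c v : ℕ} (h : Cts s P X M)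
    (hM : X'.C.M = X.C.M) (hv : v = M c) : Cts s P X' (Function.update M c v) := by
  rw [hv, Function.update_eq_self]
  intro p h1 h2 h3 h4
  rw [hM]
  exact h p h1 h2 h3 h4

theorem cts_upd {s : Sp} {P : ℤ} {X X' : LConf D} {M : ℕ → ℕ} {c v : ℕ} {a : List Bool}
    (hmD : s.m.D = D) (h : Cts s P X M) (hc : Pos s.m X.C.h c)
    (hM : X'.C.M = Function.update X.C.M X.C.h a) (hv : v = num a) (ha : a.length ≤ s.m.S) :
    Cts s P X' (Function.update M c v) := by
  intro p h1 h2 h3 h4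
  rw [hM, hc.cd hmD]
  by_cases hp : p = X.C.h
  · rw [hp, Function.update_self, Function.update_self, hv, capN_num ha]
  · rw [Function.update_of_ne hp, Function.update_of_ne]
    · exact h p h1 h2 h3 h4
    · intro he
      exact hp (cd_inj hmD h1 hc.box he)

/-! ### The step from a cell of the slab -/

section

variable {A : OneHead D} {w y : List Bool} {s : Sp} {P P' : ℤ}

theorem inn_eq (R : Rdy A w y s P P') {C' : Conf D} {z : ℕ} (hz : GoodQ s.m C' z) (q : ℕ) :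
    s.inn q z = if fst C'.h < 0 then
      (if s.lL (s.ix q) = s.rcd z then s.cod 1 2 (s.ix q + 1) (s.jx q) (s.tx q + 1) s.c0 else s.fl)
    else if (s.W : ℤ) ≤ fst C'.h then
      (if s.lR (s.jx q) = s.rcd z then s.cod 1 3 (s.ix q) (s.jx q + 1) (s.tx q + 1) s.c0 else s.fl)
    else s.en (z % 2 ^ (s.m.S + 1)) (s.ix q) (s.jx q) (s.tx q + 1) (z / 2 ^ (s.m.S + 1)) := by
  have hd : ((z / 2 ^ (s.m.S + 1) % 2 ^ s.m.κ : ℕ) : ℤ) = fst C'.h + 2 ^ (s.m.κ - 1) := by
    have h1 := hz.cq ⟨0, R.pos⟩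
    unfold Prm.cq at h1
    simp only at h1
    rw [dig_zero] at h1
    rw [fst_eq R.pos]
    exact h1
  have c1 : z / 2 ^ (s.m.S + 1) % 2 ^ s.m.κ < 2 ^ (s.m.κ - 1) ↔ fst C'.h < 0 := by
    rw [← Nat.cast_lt (α := ℤ), hd]
    push_cast
    constructor <;> intro h <;> linarith
  have c2 : 2 ^ (s.m.κ - 1) + s.W ≤ z / 2 ^ (s.m.S + 1) % 2 ^ s.m.κ ↔ (s.W : ℤ) ≤ fst C'.h := by
    rw [← Nat.cast_le (α := ℤ), hd]
    push_cast
    constructor <;> intro h <;> linarith
  unfold Sp.inn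
  rw [ifz_eq01, ifz_eq01]
  by_cases h1 : fst C'.h < 0
  · rw [if_pos h1]
    unfold lt01
    rw [if_pos (c1.mpr h1), ifz_ne one_ne_zero]
  · rw [if_neg h1]
    have h1' : lt01 (z / 2 ^ (s.m.S + 1) % 2 ^ s.m.κ) (2 ^ (s.m.κ - 1)) = 0 := by
      unfold lt01
      rw [if_neg (fun h => h1 (c1.mp h))]
    rw [h1', ifz_zero]
    by_cases h2 : (s.W : ℤ) ≤ fst C'.h
    · rw [if_pos h2]
      have h2' : le01 (2 ^ (s.m.κ - 1) + s.W) (z / 2 ^ (s.m.S + 1) % 2 ^ s.m.κ) = 1 := by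
        unfold le01
        rw [if_pos (c2.mpr h2)]
      rw [h2', ifz_ne one_ne_zero]
    · rw [if_neg h2]
      have h2' : le01 (2 ^ (s.m.κ - 1) + s.W) (z / 2 ^ (s.m.S + 1) % 2 ^ s.m.κ) = 0 := by
        unfold le01
        rw [if_neg (fun h => h2 (c2.mp h))]
      rw [h2', ifz_zero]

theorem out_cd (R : Rdy A w y s P P') {i j t md : ℕ} (hmd : md = 2 ∨ md = 3) (hi : i < 2 ^ s.ν)
    (hj : j < 2 ^ s.ν) (ht : t < 2 ^ s.te) (htn : t ≤ s.n) (M : (Fin D → ℤ) → List Bool) :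
    Cd s P ⟨md, i, j, t, ⟨[], fun _ => 0, M⟩⟩ (s.cod 1 md i j t s.c0) := by
  have h1 : 1 < 2 ^ (s.m.S + 1) := Nat.one_lt_two_pow (by omega)
  exact cd_mk (cod_spec s h1 (by omega) hi hj ht (c0_pos R).lt) _ rfl (by omega) (by omega) rfl rfl
    rfl htn rfl (Nat.zero_le _) (c0_pos R) (fun h => by omega)

theorem inn_snd (R : Rdy A w y s P P') {σ : Slb D} (hW : σ.W = P' - P)
    (hL : LM s.m s.L σ.L) (hR : LM s.m s.R σ.R) {X : LConf D} {q : ℕ} (hC : Cd s P X q)
    {C' : Conf D} {z : ℕ} (hz : GoodQ s.m C' z) (ht : X.t ≠ s.n) :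
    s.md (s.inn q z) = 0 ∨ Cd s P (inner σ X C') (s.inn q z) := by
  obtain ⟨-, -, -, b1, b2, b3⟩ := cd_base hC
  have htn : X.t + 1 ≤ s.n := by
    have := hC.tn
    omega
  have ht' : X.t + 1 < 2 ^ s.te := lt_of_le_of_lt htn R.nte
  have hWs : σ.W = s.W := by rw [hW, R.W]
  rw [inn_eq R hz]
  unfold Pool.Agent.Helper92.RECT.inner
  rw [hWs, hC.ix, hC.jx, hC.tx]
  by_cases h1 : fst C'.h < 0
  · rw [if_pos h1, if_pos h1]
    by_cases h2 : s.lL X.i = s.rcd z
    · obtain ⟨h3, h4⟩ := rec_of_LM hL hz h2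
      rw [if_pos h2, if_pos h3]
      exact Or.inr (out_cd R (Or.inl rfl) (R.Lν _ h4) b2 ht' htn _)
    · rw [if_neg h2]
      exact Or.inl (fl_md R)
  · rw [if_neg h1, if_neg h1]
    by_cases h5 : (s.W : ℤ) ≤ fst C'.h
    · rw [if_pos h5, if_pos h5]
      by_cases h2 : s.lR X.j = s.rcd z
      · obtain ⟨h3, h4⟩ := rec_of_LM hR hz h2
        rw [if_pos h2, if_pos h3]
        exact Or.inr (out_cd R (Or.inr rfl) b1 (R.Rν _ h4) ht' htn _)
      · rw [if_neg h2]
        exact Or.inl (fl_md R)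
    · rw [if_neg h5, if_neg h5]
      obtain ⟨hp, hw⟩ := pos_of hz
      unfold Sp.en
      by_cases h6 : z % 2 ^ (s.m.S + 1) * s.gV (z / 2 ^ (s.m.S + 1)) = 0
      · rw [h6, ifz_zero]
        exact Or.inl (fl_md R)
      · rw [ifz_ne h6]
        right
        have hg : s.gV (z / 2 ^ (s.m.S + 1)) ≠ 0 := fun h => h6 (by rw [h, Nat.mul_zero])
        refine cd_mk (cod_spec s (Nat.mod_lt _ (by positivity)) (by norm_num) b1 b2 ht' hp.lt) _
          rfl one_ne_zero (by norm_num) rfl rfl rfl htn hw hz.len hp (fun _ => ?_)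
        exact ⟨by push Not at h1; exact h1, by push Not at h5; exact h5, (gV_iff R hp).mp hg⟩

theorem inn_cmp (R : Rdy A w y s P P') {σ : Slb D} (hW : σ.W = P' - P)
    (hL : LMs s.m s.L σ.L) (hR : LMs s.m s.R σ.R) {X : LConf D} {q : ℕ} (hC : Cd s P X q)
    {C' : Conf D} {z : ℕ} (hz : GoodQ s.m C' z) (ht : X.t ≠ s.n)
    (hmd : (inner σ X C').md ≠ 0)
    (hbox : (inner σ X C').md = 1 → InBox s.G.κ (shf P (inner σ X C').C.h)) :
    s.md (s.inn q z) ≠ 0 := by
  obtain ⟨-, -, -, b1, b2, b3⟩ := cd_base hC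
  have hD := R.pos
  have hmD := hD_of R
  have htn : X.t + 1 ≤ s.n := by
    have := hC.tn
    omega
  have ht' : X.t + 1 < 2 ^ s.te := lt_of_le_of_lt htn R.nte
  have hWs : σ.W = s.W := by rw [hW, R.W]
  have hpos := num_pos C'.q
  rw [inn_eq R hz]
  unfold Pool.Agent.Helper92.RECT.inner at hmd hbox
  rw [hWs] at hmd hbox
  rw [hC.ix, hC.jx, hC.tx]
  have e1 : 1 < 2 ^ (s.m.S + 1) := Nat.one_lt_two_pow (by omega)
  by_cases h1 : fst C'.h < 0
  · rw [if_pos h1] at hmd ⊢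
    by_cases h3 : σ.L X.i = some (C'.q, set0 C'.h 0)
    · have h2 : s.lL X.i = s.rcd z := LMs_rec hD hmD hL hz h3
      have h4 : s.lL X.i ≠ 0 := by
        intro h0
        have h5 := rcd_mod s z
        rw [← h2, h0, Nat.zero_mod] at h5
        have h6 := hz.wq
        unfold Prm.wq at h6
        omega
      rw [if_pos h2, (cod_spec s e1 (by norm_num) (R.Lν _ h4) b2 ht' (c0_pos R).lt).md]
      norm_num
    · rw [if_neg h3] at hmd
      exact absurd rfl hmd
  · rw [if_neg h1] at hmd hbox ⊢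
    by_cases h5 : (s.W : ℤ) ≤ fst C'.h
    · rw [if_pos h5] at hmd ⊢
      by_cases h3 : σ.R X.j = some (C'.q, set0 C'.h 0)
      · have h2 : s.lR X.j = s.rcd z := LMs_rec hD hmD hR hz h3
        have h4 : s.lR X.j ≠ 0 := by
          intro h0
          have h5 := rcd_mod s z
          rw [← h2, h0, Nat.zero_mod] at h5
          have h6 := hz.wq
          unfold Prm.wq at h6
          omega
        rw [if_pos h2, (cod_spec s e1 (by norm_num) b1 (R.Rν _ h4) ht' (c0_pos R).lt).md]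
        norm_num
      · rw [if_neg h3] at hmd
        exact absurd rfl hmd
    · rw [if_neg h5] at hbox ⊢
      obtain ⟨hp, hw⟩ := pos_of hz
      unfold Sp.en
      have hg := (gV_iff R hp).mpr (hbox rfl)
      have h6 : z % 2 ^ (s.m.S + 1) * s.gV (z / 2 ^ (s.m.S + 1)) ≠ 0 :=
        Nat.mul_ne_zero (by omega) hg
      rw [ifz_ne h6,
        (cod_spec s (Nat.mod_lt _ (by positivity)) (by norm_num) b1 b2 ht' hp.lt).md]
      norm_num

/-- In the mode `1` the number of the cell and its content are right. -/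
theorem mode_one (R : Rdy A w y s P P') {X : LConf D} {q : ℕ} {M : ℕ → ℕ} (hC : Cd s P X q)
    (hM : Cts s P X M) (h1 : X.md = 1) : M (s.ce q) = capN s.m.S (num (X.C.M X.C.h)) ∧
      s.m.vq (s.bq q) (M (s.ce q)) = capN s.m.S (num (X.C.M X.C.h)) := by
  obtain ⟨hp, -, -, -, -, -⟩ := cd_base hC
  have hmD := hD_of R
  obtain ⟨p1, p2, p3⟩ := hC.pos h1
  have e1 : M (s.ce q) = capN s.m.S (num (X.C.M X.C.h)) := by
    rw [hp.cd hmD]
    exact hM X.C.h hp.box p1 p2 p3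
  refine ⟨e1, ?_⟩
  have hcel : s.m.cel (s.bq q) = 0 := by
    unfold Prm.cel tab
    rw [R.d1]
    apply Finset.sum_eq_zero
    intro k _
    simp only [Nat.mod_one, Nat.zero_mul]
  unfold Prm.vq
  rw [hcel, dig_zero, e1, Nat.mod_eq_of_lt (capN_lt _ _)]

/-- The conclusion of `STEP` in the mode `1`. -/
theorem step_one (R : Rdy A w y s P P') {X : LConf D} {q : ℕ} {M : ℕ → ℕ} (hC : Cd s P X q)
    (hM : Cts s P X M) (h1 : X.md = 1) (ha : X.C.q.head? ≠ some true) :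
    (s.m.ok (s.bq q) (M (s.ce q)) ≠ 0 →
      GoodQ s.m (A.step w y X.C) (s.m.sq (s.bq q) (M (s.ce q))) ∧
      s.m.nw (s.bq q) (M (s.ce q)) = num (A.write (A.inp w y X.C.q (X.C.M X.C.h))) ∧
      (A.write (A.inp w y X.C.q (X.C.M X.C.h))).length ≤ s.m.S) ∧
    ((A.addr X.C.q).length ≤ s.m.S → (X.C.M X.C.h).length ≤ s.m.S →
      (A.step w y X.C).q.length ≤ s.m.S →
      (A.write (A.inp w y X.C.q (X.C.M X.C.h))).length ≤ s.m.S →
      InBox s.m.κ (A.step w y X.C).h → s.m.ok (s.bq q) (M (s.ce q)) ≠ 0) := by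
  obtain ⟨eA, eN, eW, c₀, hP⟩ := R.par
  obtain ⟨-, hv⟩ := mode_one R hC hM h1
  have ho : s.m.o < s.m.d := by
    rw [R.o0, R.d1]
    norm_num
  have hG := Pool.Agent.Helper65.OH.GEO
  obtain ⟨h2, h3⟩ := Pool.Agent.Helper75.OH.STEP hG A eA eN eW c₀ w y s.m hP ho R.fns X.C (s.bq q)
    (M (s.ce q)) hC.base hv ha
  refine ⟨fun hok => ?_, h3⟩
  rcases h2 with ⟨h4, _⟩ | ⟨_, h5, h6, h7⟩
  · exact absurd h4 hok
  · exact ⟨h5, h6, h7⟩

end

/-- **STN**. -/
theorem stn : STN_stmt where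
  fin := by
    intro D s P σ X q hC hn hL hR
    unfold Sp.fin LFin
    have hmd : s.md q ≠ 0 := by
      rw [hC.md]
      exact hC.ne
    have kL : σ.L X.i = none ↔ s.lL X.i = 0 := by
      unfold Sp.lL
      rcases hL X.i with ⟨h1, h2⟩ | ⟨ρ, h1, h2, _⟩
      · exact ⟨fun _ => h1, fun _ => h2⟩
      · rw [h1]
        exact ⟨fun h => absurd h (by simp), fun h => absurd h h2⟩
    have kR : σ.R X.j = none ↔ s.lR X.j = 0 := by
      unfold Sp.lR
      rcases hR X.j with ⟨h1, h2⟩ | ⟨ρ, h1, h2, _⟩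
      · exact ⟨fun _ => h1, fun _ => h2⟩
      · rw [h1]
        exact ⟨fun h => absurd h (by simp), fun h => absurd h h2⟩
    rw [ifz_ne hmd, hC.tx, hC.ix, hC.jx, kL, kR, hn]
    unfold eq01
    constructor
    · intro h
      by_cases h1 : X.t = s.n
      · by_cases h2 : s.lL X.i + s.lR X.j = 0
        · exact ⟨hC.ne, h1, by omega, by omega⟩
        · rw [if_neg h2, Nat.mul_zero] at h
          exact absurd rfl h
      · rw [if_neg h1, Nat.zero_mul] at h
        exact absurd rfl h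
    · rintro ⟨_, h1, h2, h3⟩
      rw [if_pos h1, if_pos (by omega)]
      norm_num
  snd := by
    intro D A w y s P P' σ R hW hn hL hR X q M hC hM hf
    obtain ⟨hp, hwq, -, b1, b2, b3⟩ := cd_base hC
    have hmD := hD_of R
    have hmd := hC.md
    have h03 := hC.ne
    have h3 := hC.le
    unfold Sp.N Sp.Wr
    rcases (show X.md = 1 ∨ X.md = 2 ∨ X.md = 3 by omega) with h1 | h1 | h1
    · rw [hmd, h1]
      rw [show eq01 1 1 = 1 from rfl, ifz_ne one_ne_zero, ifz_ne one_ne_zero]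
      unfold Sp.N1
      rw [hC.tx, hwq]
      by_cases hs : eq01 X.t s.n + accN (num X.C.q) +
          eq01 (s.m.ok (s.bq q) (M (s.ce q))) 0 = 0
      · rw [hs, ifz_zero, ifz_zero]
        have e1 : X.t ≠ s.n := by
          intro h
          rw [h, show eq01 s.n s.n = 1 from if_pos rfl] at hs
          omega
        have e2 : X.C.q.head? ≠ some true := by
          intro h
          rw [(accN_num _).mpr h] at hs
          omega
        have e3 : s.m.ok (s.bq q) (M (s.ce q)) ≠ 0 := by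
          intro h
          rw [h, show eq01 0 0 = 1 from rfl] at hs
          omega
        obtain ⟨g1, g2, g3⟩ := (step_one R hC hM h1 e2).1 e3
        have hl : lstep A w y σ X = Pool.Agent.Helper92.RECT.inner σ X (A.step w y X.C) := by
          unfold lstep
          rw [if_pos h1, if_neg]
          rw [hn]
          rintro (h | h)
          · exact e1 h
          · exact e2 h
        rw [hl]
        rcases inn_snd R hW hL hR hC g1 e1 with h5 | h5
        · exact Or.inl h5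
        · refine Or.inr ⟨h5, ?_⟩
          refine cts_upd hmD hM hp (a := A.write (A.inp w y X.C.q (X.C.M X.C.h))) ?_ g2 g3
          have h6 : (A.step w y X.C).M = Function.update X.C.M X.C.h
            (A.write (A.inp w y X.C.q (X.C.M X.C.h))) := rfl
          rw [← h6]
          have h7 : (Pool.Agent.Helper92.RECT.inner σ X (A.step w y X.C)).md ≠ 0 := h5.ne
          unfold Pool.Agent.Helper92.RECT.inner at h7 ⊢
          split_ifs at h7 ⊢ <;> first | rfl | exact absurd rfl h7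
      · rw [ifz_ne hs]
        exact Or.inl (fl_md R)
    · rw [hmd, h1]
      rw [show eq01 2 1 = 0 from rfl, show eq01 2 2 = 1 from rfl, ifz_zero, ifz_ne one_ne_zero,
        ifz_zero]
      unfold Sp.N2 Sp.en
      rw [hC.ix, hC.jx, hC.tx]
      by_cases hs : s.lL X.i % 2 ^ (s.m.S + 1) *
          s.gV (s.st0 (s.lL X.i / 2 ^ (s.m.S + 1)) (2 ^ (s.m.κ - 1))) = 0
      · rw [hs, ifz_zero]
        exact Or.inl (fl_md R)
      · rw [ifz_ne hs]
        right
        have e1 : s.lL X.i % 2 ^ (s.m.S + 1) ≠ 0 := fun h => hs (by rw [h, Nat.zero_mul])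
        have e2 : s.gV (s.st0 (s.lL X.i / 2 ^ (s.m.S + 1)) (2 ^ (s.m.κ - 1))) ≠ 0 :=
          fun h => hs (by rw [h, Nat.mul_zero])
        rcases hL X.i with ⟨h4, _⟩ | ⟨ρ, h4, h5, hrc | h6⟩
        · exfalso
          apply e1
          unfold Sp.lL
          rw [h4, Nat.zero_mod]
        · have hU : 2 ^ (s.m.κ - 1) < 2 ^ s.m.κ := by
            have := (kap_ge R).1
            have : 0 < 2 ^ (s.m.κ - 1) := by positivity
            omega
          have hl : lstep A w y σ X = ⟨1, X.i + 1, X.j, X.t, ⟨ρ.1, set0 ρ.2 0, X.C.M⟩⟩ := by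
            unfold lstep
            rw [if_neg (by omega), if_pos h1, h4]
          rw [hl]
          refine ⟨?_, cts_same hM rfl rfl⟩
          exact (enter R hrc hU (z := 0) (by push_cast; ring)).2 le_rfl
            (by exact_mod_cast R.Wpos) (R.Lν _ h5) b2 b3 hC.tn _ e2
        · exact absurd h6 e1
    · rw [hmd, h1]
      rw [show eq01 3 1 = 0 from rfl, show eq01 3 2 = 0 from rfl, show eq01 3 3 = 1 from rfl,
        ifz_zero, ifz_zero, ifz_ne one_ne_zero, ifz_zero]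
      unfold Sp.N3 Sp.en
      rw [hC.ix, hC.jx, hC.tx]
      by_cases hs : s.lR X.j % 2 ^ (s.m.S + 1) *
          s.gV (s.st0 (s.lR X.j / 2 ^ (s.m.S + 1)) (2 ^ (s.m.κ - 1) + s.W - 1)) = 0
      · rw [hs, ifz_zero]
        exact Or.inl (fl_md R)
      · rw [ifz_ne hs]
        right
        have e1 : s.lR X.j % 2 ^ (s.m.S + 1) ≠ 0 := fun h => hs (by rw [h, Nat.zero_mul])
        have e2 : s.gV (s.st0 (s.lR X.j / 2 ^ (s.m.S + 1)) (2 ^ (s.m.κ - 1) + s.W - 1)) ≠ 0 :=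
          fun h => hs (by rw [h, Nat.mul_zero])
        have hW0 := R.Wpos
        have hW1 := R.Wle
        rcases hR X.j with ⟨h4, _⟩ | ⟨ρ, h4, h5, hrc | h6⟩
        · exfalso
          apply e1
          unfold Sp.lR
          rw [h4, Nat.zero_mod]
        · have hU : 2 ^ (s.m.κ - 1) + s.W - 1 < 2 ^ s.m.κ := by
            obtain ⟨k1, k2⟩ := kap_ge R
            omega
          have hl : lstep A w y σ X = ⟨1, X.i, X.j + 1, X.t,
              ⟨ρ.1, set0 ρ.2 ((s.W : ℤ) - 1), X.C.M⟩⟩ := by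
            unfold lstep
            rw [if_neg (by omega), if_neg (by omega), if_pos h1, h4, hW, R.W]
          rw [hl]
          refine ⟨?_, cts_same hM rfl rfl⟩
          refine (enter R hrc hU (z := (s.W : ℤ) - 1) ?_).2 (by omega) (by omega) b1 (R.Rν _ h5)
            b3 hC.tn _ e2
          rw [Nat.cast_sub (le_trans hW0 (Nat.le_add_left _ _))]
          push_cast
          ring
        · exact absurd h6 e1
  cmp := by
    intro D A w y s P P' σ R hW hn hL hR X q M hC hM hf hne hbox hlen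
    obtain ⟨hp, hwq, -, b1, b2, b3⟩ := cd_base hC
    have hmD := hD_of R
    have hmd := hC.md
    have h03 := hC.ne
    have h3 := hC.le
    unfold Sp.N
    rcases (show X.md = 1 ∨ X.md = 2 ∨ X.md = 3 by omega) with h1 | h1 | h1
    · rw [hmd, h1]
      rw [show eq01 1 1 = 1 from rfl, ifz_ne one_ne_zero]
      unfold Sp.N1
      rw [hC.tx, hwq]
      have hnf : ¬(X.t = σ.n ∨ X.C.q.head? = some true) := by
        intro h
        unfold lstep at hne
        rw [if_pos h1, if_pos h] at hne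
        exact hne rfl
      have hl : lstep A w y σ X = Pool.Agent.Helper92.RECT.inner σ X (A.step w y X.C) := by
        unfold lstep
        rw [if_pos h1, if_neg hnf]
      rw [hl] at hne hbox
      push Not at hnf
      obtain ⟨e1, e2⟩ := hnf
      rw [hn] at e1
      obtain ⟨l1, l2, l3, l4, l5⟩ := hlen h1
      have e3 := (step_one R hC hM h1 e2).2 l1 l2 l3 l4 l5
      obtain ⟨g1, g2, g3⟩ := (step_one R hC hM h1 e2).1 e3
      have hacc : accN (num X.C.q) = 0 := by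
        have := accN_le (num X.C.q)
        have : accN (num X.C.q) ≠ 1 := fun h => e2 ((accN_num _).mp h)
        omega
      have hs : eq01 X.t s.n + accN (num X.C.q) +
          eq01 (s.m.ok (s.bq q) (M (s.ce q))) 0 = 0 := by
        rw [hacc, show eq01 X.t s.n = 0 from if_neg e1,
          show eq01 (s.m.ok (s.bq q) (M (s.ce q))) 0 = 0 from if_neg e3]
      rw [hs, ifz_zero]
      exact inn_cmp R hW hL hR hC g1 e1 hne hbox
    · rw [hmd, h1]
      rw [show eq01 2 1 = 0 from rfl, show eq01 2 2 = 1 from rfl, ifz_zero, ifz_ne one_ne_zero]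
      unfold Sp.N2 Sp.en
      rw [hC.ix, hC.jx, hC.tx]
      rcases hL X.i with ⟨_, h4⟩ | ⟨ρ, h4, hrc, _⟩
      · exfalso
        apply hne
        unfold lstep
        rw [if_neg (by omega), if_pos h1, h4]
        rfl
      · have hU : 2 ^ (s.m.κ - 1) < 2 ^ s.m.κ := by
          have := (kap_ge R).1
          have : 0 < 2 ^ (s.m.κ - 1) := by positivity
          omega
        have hl : lstep A w y σ X = ⟨1, X.i + 1, X.j, X.t, ⟨ρ.1, set0 ρ.2 0, X.C.M⟩⟩ := by
          unfold lstep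
          rw [if_neg (by omega), if_pos h1, h4]
        rw [hl] at hbox
        have hb := hbox rfl
        obtain ⟨hq, hen⟩ := enter R (i := X.i + 1) (j := X.j) (t := X.t) hrc hU (z := 0)
          (by push_cast; ring)
        have hg := (gV_iff R hq).mpr hb
        have hu : dig (2 ^ s.m.sg) s.L X.i % 2 ^ (s.m.S + 1) ≠ 0 := by
          rw [hrc.wq]
          have := num_pos ρ.1
          omega
        have hne0 : s.lL X.i ≠ 0 := by
          intro h
          apply hu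
          unfold Sp.lL at h
          rw [h, Nat.zero_mod]
        have hs : s.lL X.i % 2 ^ (s.m.S + 1) *
            s.gV (s.st0 (s.lL X.i / 2 ^ (s.m.S + 1)) (2 ^ (s.m.κ - 1))) ≠ 0 :=
          Nat.mul_ne_zero hu hg
        rw [ifz_ne hs]
        have h5 := hen le_rfl (by exact_mod_cast R.Wpos) (R.Lν _ hne0) b2 b3 hC.tn X.C.M hg
        have h6 := h5.md
        unfold Sp.lL
        rw [h6]
        norm_num
    · rw [hmd, h1]
      rw [show eq01 3 1 = 0 from rfl, show eq01 3 2 = 0 from rfl, show eq01 3 3 = 1 from rfl,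
        ifz_zero, ifz_zero, ifz_ne one_ne_zero]
      unfold Sp.N3 Sp.en
      rw [hC.ix, hC.jx, hC.tx]
      have hW0 := R.Wpos
      have hW1 := R.Wle
      rcases hR X.j with ⟨_, h4⟩ | ⟨ρ, h4, hrc, _⟩
      · exfalso
        apply hne
        unfold lstep
        rw [if_neg (by omega), if_neg (by omega), if_pos h1, h4]
        rfl
      · have hU : 2 ^ (s.m.κ - 1) + s.W - 1 < 2 ^ s.m.κ := by
          obtain ⟨k1, k2⟩ := kap_ge R
          omega
        have hl : lstep A w y σ X = ⟨1, X.i, X.j + 1, X.t,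
            ⟨ρ.1, set0 ρ.2 ((s.W : ℤ) - 1), X.C.M⟩⟩ := by
          unfold lstep
          rw [if_neg (by omega), if_neg (by omega), if_pos h1, h4, hW, R.W]
        rw [hl] at hbox
        have hb := hbox rfl
        obtain ⟨hq, hen⟩ := enter R (i := X.i) (j := X.j + 1) (t := X.t) hrc hU
          (z := (s.W : ℤ) - 1) (by
            rw [Nat.cast_sub (le_trans hW0 (Nat.le_add_left _ _))]
            push_cast
            ring)
        have hg := (gV_iff R hq).mpr hb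
        have hu : dig (2 ^ s.m.sg) s.R X.j % 2 ^ (s.m.S + 1) ≠ 0 := by
          rw [hrc.wq]
          have := num_pos ρ.1
          omega
        have hne0 : s.lR X.j ≠ 0 := by
          intro h
          apply hu
          unfold Sp.lR at h
          rw [h, Nat.zero_mod]
        have hs : s.lR X.j % 2 ^ (s.m.S + 1) *
            s.gV (s.st0 (s.lR X.j / 2 ^ (s.m.S + 1)) (2 ^ (s.m.κ - 1) + s.W - 1)) ≠ 0 :=
          Nat.mul_ne_zero hu hg
        rw [ifz_ne hs]
        have h5 := hen (by omega) (by omega) b1 (R.Rν _ hne0) b3 hC.tn X.C.M hg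
        have h6 := h5.md
        unfold Sp.lR
        rw [h6]
        norm_num

end Pool.Agent.Helper39.RECT
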